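import Pool.Agent.Q36.DM.Max

/-! # The Hausdorff dimension of the set of large values -/

set_option autoImplicit false

open Finset

namespace Pool.Agent.Q36.DM

open Pool.Agent.W928.MW (e e_add e_norm e_lip)

/-- the points of `[0,1]` where some sum of length at most `2^(i+1)` is larger than `2^(ic)` -/
def Bs (a : ℕ → ℂ) (c : ℝ) (i : ℕ) : Set ℝ :=
  {x : ℝ | x ∈ Set.Icc (0 : ℝ) 1 ∧ ∃ R : ℕ, R ≤ 2 ^ (i + 1) ∧ ((2 : ℝ) ^ i) ^ c < ‖F a R x‖}

lemma cover (a : ℕ → ℂ) (ha : ∀ n, ‖a n‖ ≤ 1) (c : ℝ) (i : ℕ) :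
    ∃ S : Finset ℝ, (S.card : ℝ) ≤ 1024 * ((i : ℝ) + 2) ^ 2 * ((2 : ℝ) ^ i) ^ 2 / (((2 : ℝ) ^ i) ^ c) ^ 2 ∧
      Bs a c i ⊆ ⋃ x ∈ S, Set.Icc x (x + ((2 : ℝ) ^ i) ^ (-(1 : ℝ))) := by
  classical
  set N : ℕ := 2 ^ (i + 1) with hN
  set M : ℕ := 8 * N with hM
  have hN1 : 1 ≤ N := Nat.one_le_two_pow
  have hM1 : 1 ≤ M := by omega
  have hM0 : (0 : ℝ) < M := by exact_mod_cast hM1
  set T : ℝ := ((2 : ℝ) ^ i) ^ c / 4 with hT
  have hT0 : 0 < T := by positivity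
  set J : Finset ℕ := (range (M + 1)).filter (fun j => ∃ p : ℕ, p ≤ N ∧ T ≤ ‖F a p ((j : ℝ) / M)‖) with hJ
  set J' : Finset ℕ := (range M).filter (fun j => ∃ p : ℕ, p ≤ N ∧ T ≤ ‖F a p ((j : ℝ) / M)‖) with hJ'
  have hcard : (J'.card : ℝ) ≤ (((i + 1 : ℕ) : ℝ) + 1) ^ 2 * 2 ^ (i + 1) * M / T ^ 2 := by
    refine count a ha (i + 1) M (by omega) T hT0 J' (Finset.filter_subset _ _) ?_
    intro j hj
    rw [hJ', mem_filter] at hj
    exact hj.2
  -- the point M/M = 1 behaves like 0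
  have hper : ∀ p : ℕ, F a p (((M : ℕ) : ℝ) / M) = F a p (((0 : ℕ) : ℝ) / M) := by
    intro p
    unfold F
    refine Finset.sum_congr rfl (fun n _ => ?_)
    congr 1
    rw [div_self hM0.ne', Nat.cast_zero, zero_div, mul_zero, mul_one, e_zero]
    rw [Pool.Agent.TH181.MW.e_eq]
    exact_mod_cast Pool.Agent.H520R3.e_int (n : ℤ)
  have hcard2 : (J.card : ℝ) ≤ 2 * (J'.card : ℝ) := by
    have h1 : J ⊆ J' ∪ J'.image (fun _ => M) := by
      intro j hj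
      rw [hJ, mem_filter, mem_range] at hj
      obtain ⟨h2, p, hp, hTp⟩ := hj
      rcases Nat.lt_or_ge j M with h3 | h3
      · refine Finset.mem_union_left _ ?_
        rw [hJ', mem_filter, mem_range]
        exact ⟨h3, p, hp, hTp⟩
      · have h4 : j = M := by omega
        refine Finset.mem_union_right _ ?_
        rw [mem_image]
        refine ⟨0, ?_, h4.symm⟩
        rw [hJ', mem_filter, mem_range]
        refine ⟨hM1, p, hp, ?_⟩
        rw [h4, hper] at hTp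
        exact hTp
    have h2 := (Finset.card_le_card h1).trans (Finset.card_union_le _ _)
    have h3 : (J'.image (fun _ => M)).card ≤ J'.card := Finset.card_image_le
    have h4 : J.card ≤ 2 * J'.card := by omega
    exact_mod_cast h4
  refine ⟨J.image (fun j : ℕ => (j : ℝ) / M - 1 / (2 * M)), ?_, ?_⟩
  · have h1 : ((J.image (fun j : ℕ => (j : ℝ) / M - 1 / (2 * M))).card : ℝ) ≤ J.card := by
      exact_mod_cast Finset.card_image_le
    refine h1.trans (hcard2.trans ?_)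
    refine (mul_le_mul_of_nonneg_left hcard (by norm_num)).trans (le_of_eq ?_)
    rw [hT, hM, hN]
    push_cast
    rw [div_pow]
    field_simp
    ring
  · intro x hx
    obtain ⟨⟨hx0, hx1⟩, R, hR, hRx⟩ := hx
    set j : ℕ := ⌊x * M + 1 / 2⌋₊ with hj
    have hj1 : (j : ℝ) ≤ x * M + 1 / 2 := Nat.floor_le (by positivity)
    have hj2 : x * M + 1 / 2 < j + 1 := Nat.lt_floor_add_one _
    have hjM : j < M + 1 := by
      have : (j : ℝ) < M + 1 := by nlinarith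
      exact_mod_cast this
    have hd : |x - (j : ℝ) / M| ≤ 1 / (2 * M) := by
      have h1 : x - (j : ℝ) / M = (x * M - j) / M := by field_simp
      rw [h1, abs_div, abs_of_pos hM0, div_le_div_iff₀ hM0 (by positivity)]
      have h2 : |x * M - j| ≤ 1 / 2 := by
        rw [abs_le]
        constructor <;> linarith
      nlinarith
    have hjJ : j ∈ J := by
      rw [hJ, mem_filter, mem_range]
      refine ⟨hjM, ?_⟩
      by_contra hcon
      push Not at hcon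
      have h1 := near a N R x ((j : ℝ) / M) T (1 / (2 * M)) (by rw [hN]; exact hR) hT0.le hd
        (fun m hm => (hcon m hm).le)
      have h2 : (N : ℝ) * (1 / (2 * M)) = 1 / 16 := by
        rw [hM]
        have : (0 : ℝ) < N := by exact_mod_cast hN1
        push_cast
        field_simp
        norm_num
      rw [h2] at h1
      have h3 : T * (1 + 2 * Real.pi * (1 / 16)) ≤ ((2 : ℝ) ^ i) ^ c := by
        have hpi : Real.pi ≤ 4 := Real.pi_le_four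
        have : T * (1 + 2 * Real.pi * (1 / 16)) ≤ T * 4 := by
          apply mul_le_mul_of_nonneg_left _ hT0.le
          linarith
        refine this.trans (le_of_eq ?_)
        rw [hT]; ring
      linarith
    rw [Set.mem_iUnion₂]
    refine ⟨(j : ℝ) / M - 1 / (2 * M), Finset.mem_image_of_mem _ hjJ, ?_⟩
    have h5 : ((2 : ℝ) ^ i) ^ (-(1 : ℝ)) = 1 / (2 : ℝ) ^ i := by
      rw [Real.rpow_neg_one, one_div]
    have h6 : 1 / (M : ℝ) ≤ 1 / (2 : ℝ) ^ i := by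
      apply one_div_le_one_div_of_le (by positivity)
      rw [hM, hN]
      push_cast
      have : (0 : ℝ) < 2 ^ i := by positivity
      rw [pow_succ]
      linarith
    have h7 : 1 / (2 * (M : ℝ)) + 1 / (2 * (M : ℝ)) = 1 / (M : ℝ) := by field_simp; norm_num
    rw [abs_le] at hd
    rw [h5]
    constructor
    · linarith [hd.1]
    · linarith [hd.2]

/-- the count is smaller than `(2^i)^A` -/
lemma eventually_small (c A : ℝ) (hA : 2 - 2 * c < A) :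
    ∃ i0 : ℕ, ∀ i : ℕ, i0 ≤ i →
      1024 * ((i : ℝ) + 2) ^ 2 * ((2 : ℝ) ^ i) ^ 2 / (((2 : ℝ) ^ i) ^ c) ^ 2 ≤ ((2 : ℝ) ^ i) ^ A := by
  set η : ℝ := A - (2 - 2 * c) with hη
  have hη0 : 0 < η := by rw [hη]; linarith
  -- polynomial versus exponential
  have hlim : Filter.Tendsto (fun i : ℕ => 1024 * ((i : ℝ) + 2) ^ 2 / ((2 : ℝ) ^ η) ^ i)
      Filter.atTop (nhds 0) := by
    have h1 : (1 : ℝ) < (2 : ℝ) ^ η := Real.one_lt_rpow (by norm_num) hη0
    have t2 := tendsto_pow_const_div_const_pow_of_one_lt 2 h1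
    have t1 := tendsto_pow_const_div_const_pow_of_one_lt 1 h1
    have t0 := tendsto_pow_const_div_const_pow_of_one_lt 0 h1
    have := ((t2.const_mul 1024).add (t1.const_mul 4096)).add (t0.const_mul 4096)
    simp only [mul_zero, add_zero] at this
    refine this.congr (fun i => ?_)
    field_simp
    ring
  have h2 := (hlim.eventually (gt_mem_nhds (show (0 : ℝ) < 1 by norm_num))).exists_forall_of_atTop
  obtain ⟨i0, hi0⟩ := h2
  refine ⟨i0, fun i hi => ?_⟩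
  have h3 := hi0 i hi
  have h4 : (0 : ℝ) < (2 : ℝ) ^ i := by positivity
  have h5 : ((2 : ℝ) ^ i) ^ A = ((2 : ℝ) ^ η) ^ i * (((2 : ℝ) ^ i) ^ 2 / (((2 : ℝ) ^ i) ^ c) ^ 2) := by
    have e1 : A = η + (2 - 2 * c) := by rw [hη]; ring
    clear_value η
    rw [e1, Real.rpow_add h4, Real.rpow_sub h4]
    have e2 : ((2 : ℝ) ^ i) ^ η = ((2 : ℝ) ^ η) ^ i := by
      rw [← Real.rpow_natCast, ← Real.rpow_mul (by norm_num), mul_comm, Real.rpow_mul (by norm_num),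
        Real.rpow_natCast]
    have e3 : ((2 : ℝ) ^ i) ^ (2 : ℝ) = ((2 : ℝ) ^ i) ^ 2 := by
      exact_mod_cast Real.rpow_natCast ((2 : ℝ) ^ i) 2
    have e4 : ((2 : ℝ) ^ i) ^ (2 * c) = (((2 : ℝ) ^ i) ^ c) ^ 2 := by
      rw [mul_comm, Real.rpow_mul h4.le]
      exact_mod_cast Real.rpow_natCast (((2 : ℝ) ^ i) ^ c) 2
    rw [e2, e3, e4]
  rw [h5]
  have h6 : 1024 * ((i : ℝ) + 2) ^ 2 ≤ ((2 : ℝ) ^ η) ^ i := by
    have h7 : (0 : ℝ) < ((2 : ℝ) ^ η) ^ i := by positivity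
    rw [div_lt_one h7] at h3
    exact h3.le
  calc 1024 * ((i : ℝ) + 2) ^ 2 * ((2 : ℝ) ^ i) ^ 2 / (((2 : ℝ) ^ i) ^ c) ^ 2
      = (1024 * ((i : ℝ) + 2) ^ 2) * (((2 : ℝ) ^ i) ^ 2 / (((2 : ℝ) ^ i) ^ c) ^ 2) := by ring
    _ ≤ _ := mul_le_mul_of_nonneg_right h6 (by positivity)

/-- the exceptional set in `[0,1]` -/
theorem dim01 (a : ℕ → ℂ) (ha : ∀ n, ‖a n‖ ≤ 1) (c : ℝ) (hc0 : 0 ≤ c) (hc : c ≤ 1) :
    dimH {x : ℝ | x ∈ Set.Icc (0 : ℝ) 1 ∧ ¬ ∃ C : ℝ, ∀ R : ℕ, 1 ≤ R → ‖F a R x‖ ≤ C * (R : ℝ) ^ c} ≤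
      ENNReal.ofReal (2 - 2 * c) := by
  have hsub : {x : ℝ | x ∈ Set.Icc (0 : ℝ) 1 ∧ ¬ ∃ C : ℝ, ∀ R : ℕ, 1 ≤ R → ‖F a R x‖ ≤ C * (R : ℝ) ^ c} ⊆
      {x : ℝ | ∀ i1 : ℕ, ∃ i : ℕ, i1 ≤ i ∧ x ∈ Bs a c i} := by
    intro x hx i1
    obtain ⟨hx01, hx⟩ := hx
    push Not at hx
    -- take C larger than all the small sums
    obtain ⟨R, hR1, hR⟩ := hx (∑ R ∈ range (2 ^ i1), ‖F a R x‖ + 1)
    have hS : 0 ≤ ∑ R ∈ range (2 ^ i1), ‖F a R x‖ := Finset.sum_nonneg (fun _ _ => norm_nonneg _)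
    have hR0 : (1 : ℝ) ≤ (R : ℝ) := by exact_mod_cast hR1
    have hRc : (1 : ℝ) ≤ (R : ℝ) ^ c := Real.one_le_rpow hR0 hc0
    have hbig : 2 ^ i1 ≤ R := by
      by_contra hcon
      push Not at hcon
      have h1 : ‖F a R x‖ ≤ ∑ R ∈ range (2 ^ i1), ‖F a R x‖ :=
        Finset.single_le_sum (f := fun R => ‖F a R x‖) (fun _ _ => norm_nonneg _) (mem_range.mpr hcon)
      nlinarith
    set i : ℕ := Nat.log 2 R with hi
    have hi1 : 2 ^ i ≤ R := Nat.pow_log_le_self 2 (by omega)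
    have hi2 : R < 2 ^ (i + 1) := Nat.lt_pow_succ_log_self (by norm_num) R
    refine ⟨i, ?_, hx01, R, hi2.le, ?_⟩
    · exact Nat.le_log_of_pow_le (by norm_num) hbig
    · have h2 : ((2 : ℝ) ^ i) ^ c ≤ (R : ℝ) ^ c :=
        Real.rpow_le_rpow (by positivity) (by exact_mod_cast hi1) hc0
      nlinarith
  refine (dimH_mono hsub).trans ?_
  -- all D > 2 - 2c work
  have hD : ∀ D : ℝ, 2 - 2 * c < D →
      dimH {x : ℝ | ∀ i1 : ℕ, ∃ i : ℕ, i1 ≤ i ∧ x ∈ Bs a c i} ≤ ENNReal.ofReal D := by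
    intro D hD
    obtain ⟨i0, hi0⟩ := eventually_small c ((D + (2 - 2 * c)) / 2) (by linarith)
    refine Pool.Agent.TH181.MW.S_DIMG_t ((D + (2 - 2 * c)) / 2) 1 D (Bs a c) (by norm_num)
      (by linarith) (by linarith) ⟨i0, fun i hi => ?_⟩
    obtain ⟨S, hS, hcov⟩ := cover a ha c i
    exact ⟨S, hS.trans (hi0 i hi), hcov⟩
  refine ENNReal.le_of_forall_pos_le_add ?_
  intro ε hε _
  have h1 := hD (2 - 2 * c + ε) (by have : (0 : ℝ) < ε := hε; linarith)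
  rw [ENNReal.ofReal_add (by linarith) ε.coe_nonneg, ENNReal.ofReal_coe_nnreal] at h1
  exact h1

end Pool.Agent.Q36.DM
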