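import Pool.Agent.Q36.DM.Twist

/-! # Generic members of Lipschitz families over a set of small box dimension -/

set_option autoImplicit false

open Finset

namespace Pool.Agent.Q36.DM

open Pool.Agent.W928.MW (e e_add e_norm e_lip)

/-- the upper box dimension of `E` is at most `d` -/
def BoxLE {X : Type} [PseudoMetricSpace X] (E : Set X) (d : ℝ) : Prop :=
  ∀ ε : ℝ, 0 < ε → ∃ C : ℝ, ∀ δ : ℝ, 0 < δ → δ ≤ 1 →
    ∃ S : Finset X, (S.card : ℝ) ≤ C * δ ^ (-(d + ε)) ∧ ∀ x ∈ E, ∃ s ∈ S, dist x s ≤ δ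

/-- `G` is a transversal Lipschitz family on `[p, q]` -/
structure Fam {X : Type} [PseudoMetricSpace X] (G : X → ℝ → ℝ) (p q m L : ℝ) : Prop where
  pos : 0 < m
  nonneg : 0 ≤ L
  lip : ∀ x x' : X, ∀ y ∈ Set.Icc p q, |G x y - G x' y| ≤ L * dist x x'
  up : ∀ x : X, ∀ y ∈ Set.Icc p q, ∀ y' ∈ Set.Icc p q, |G x y - G x y'| ≤ L * |y - y'|
  low : ∀ x : X, ∀ y ∈ Set.Icc p q, ∀ y' ∈ Set.Icc p q, m * |y - y'| ≤ |G x y - G x y'|

/-- the bad parameters at the scale `2 ^ i` -/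
def Vs {X : Type} (E : Set X) (G : X → ℝ → ℝ) (p q : ℝ) (a : ℕ → ℂ) (c : ℝ) (i : ℕ) : Set ℝ :=
  {y : ℝ | y ∈ Set.Icc p q ∧ ∃ x ∈ E, ∃ R : ℕ, R ≤ 2 ^ (i + 1) ∧ ((2 : ℝ) ^ i) ^ c < ‖F a R (G x y)‖}

lemma fam_cover {X : Type} [PseudoMetricSpace X] {E : Set X} {G : X → ℝ → ℝ} {p q m L : ℝ}
    (hG : Fam G p q m L) (A : ℕ) (hA : ∀ x ∈ E, ∀ y ∈ Set.Icc p q, |G x y| ≤ A) (a : ℕ → ℂ) (c : ℝ) :
    ∃ K : ℝ, 0 < K ∧ ∀ (i : ℕ) (S1 : Finset X) (_ : ∀ x ∈ E, ∃ s ∈ S1, dist x s ≤ ((2 : ℝ) ^ i) ^ (-(1 : ℝ)))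
      (S2 : Finset ℝ) (_ : Bs a c i ⊆ ⋃ x ∈ S2, Set.Icc x (x + ((2 : ℝ) ^ i) ^ (-(1 : ℝ)))),
      ∃ T : Finset ℝ, (T.card : ℝ) ≤ K * S1.card * S2.card ∧
        Vs E G p q a c i ⊆ ⋃ t ∈ T, Set.Icc t (t + ((2 : ℝ) ^ i) ^ (-(1 : ℝ))) := by
  classical
  have hm := hG.pos
  have hL := hG.nonneg
  set K0 : ℕ := ⌈2 * (1 + 2 * L) / m⌉₊ + 1 with hK0
  refine ⟨(2 * A + 3) * K0, by positivity, fun i S1 hS1 S2 hS2 => ?_⟩
  set δ : ℝ := ((2 : ℝ) ^ i) ^ (-(1 : ℝ)) with hδ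
  have hδ0 : 0 < δ := by positivity
  set D : ℝ := (1 + 2 * L) * δ / m with hD
  set W : X × ℤ × ℝ → Set ℝ := fun w => {y | y ∈ Set.Icc p q ∧
    w.2.1 + w.2.2 - L * δ ≤ G w.1 y ∧ G w.1 y ≤ w.2.1 + w.2.2 + (1 + L) * δ} with hW
  obtain ⟨y0, hy0⟩ : ∃ y0 : X × ℤ × ℝ → ℝ, ∀ w, (W w).Nonempty → y0 w ∈ W w :=
    ⟨fun w => if h : (W w).Nonempty then h.some else 0, fun w h => by
      simp only [dif_pos h]
      exact h.some_mem⟩
  refine ⟨((S1 ×ˢ (Finset.Icc (-(A : ℤ) - 1) (A + 1)) ×ˢ S2) ×ˢ range K0).image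
    (fun w => y0 w.1 - D + w.2 * δ), ?_, ?_⟩
  · refine (Nat.cast_le.2 Finset.card_image_le).trans ?_
    rw [card_product, card_product, card_product, card_range, Int.card_Icc]
    have h1 : ((A : ℤ) + 1 + 1 - (-(A : ℤ) - 1)).toNat = 2 * A + 3 := by omega
    rw [h1]
    push_cast
    apply le_of_eq
    ring
  · rintro y ⟨hy, x, hx, R, hR, hbig⟩
    obtain ⟨s, hs, hsx⟩ := hS1 x hx
    have hfr : Int.fract (G x y) ∈ Bs a c i := by
      refine ⟨⟨Int.fract_nonneg _, (Int.fract_lt_one _).le⟩, R, hR, ?_⟩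
      rw [← F_add_int _ R _ ⌊G x y⌋, Int.fract_add_floor]
      exact hbig
    obtain ⟨z, hz, hzy⟩ := Set.mem_iUnion₂.1 (hS2 hfr)
    have hk : ⌊G x y⌋ ∈ Finset.Icc (-(A : ℤ) - 1) (A + 1) := by
      have h1 := abs_le.1 (hA x hx y hy)
      rw [Finset.mem_Icc]
      constructor
      · rw [Int.le_floor]
        push_cast
        linarith [h1.1]
      · have h2 := Int.floor_le (G x y)
        have h3 : ((⌊G x y⌋ : ℤ) : ℝ) ≤ ((A + 1 : ℤ) : ℝ) := by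
          push_cast
          linarith [h1.2]
        exact_mod_cast h3
    set w : X × ℤ × ℝ := (s, ⌊G x y⌋, z) with hw
    have hGs := abs_le.1 (hG.lip x s y hy)
    have hsd : L * dist x s ≤ L * δ := mul_le_mul_of_nonneg_left hsx hL
    have hfl : (⌊G x y⌋ : ℝ) + Int.fract (G x y) = G x y := Int.floor_add_fract _
    have hyW : y ∈ W w := by
      refine ⟨hy, ?_, ?_⟩
      · simp only [hw]
        linarith [hzy.1, hGs.2]
      · simp only [hw]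
        linarith [hzy.2, hGs.1]
    have hy0W := hy0 w ⟨y, hyW⟩
    have hdist : |y - y0 w| ≤ D := by
      have h1 := hG.low w.1 y hy (y0 w) hy0W.1
      have h2 : |G w.1 y - G w.1 (y0 w)| ≤ (1 + 2 * L) * δ := by
        rw [abs_le]
        constructor
        · linarith [hyW.2.1, hy0W.2.2]
        · linarith [hyW.2.2, hy0W.2.1]
      rw [hD, le_div_iff₀ hm]
      linarith
    have hab := abs_le.1 hdist
    have hnn : 0 ≤ (y - (y0 w - D)) / δ := div_nonneg (by linarith) hδ0.le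
    set j : ℕ := ⌊(y - (y0 w - D)) / δ⌋₊ with hj
    have hj1 : (j : ℝ) ≤ (y - (y0 w - D)) / δ := Nat.floor_le hnn
    have hj2 : (y - (y0 w - D)) / δ < j + 1 := Nat.lt_floor_add_one _
    have hjK : j < K0 := by
      have h1 : (y - (y0 w - D)) / δ ≤ 2 * (1 + 2 * L) / m := by
        rw [div_le_iff₀ hδ0]
        have : 2 * (1 + 2 * L) / m * δ = 2 * D := by rw [hD]; ring
        rw [this]
        linarith
      have h2 : (j : ℝ) ≤ ⌈2 * (1 + 2 * L) / m⌉₊ := hj1.trans (h1.trans (Nat.le_ceil _))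
      have h3 : j ≤ ⌈2 * (1 + 2 * L) / m⌉₊ := by exact_mod_cast h2
      omega
    rw [Set.mem_iUnion₂]
    refine ⟨y0 w - D + j * δ, Finset.mem_image.2 ⟨(w, j), ?_, rfl⟩, ?_⟩
    · rw [mem_product, mem_product, mem_product, mem_range]
      exact ⟨⟨hs, hk, hz⟩, hjK⟩
    · rw [le_div_iff₀ hδ0] at hj1
      rw [div_lt_iff₀ hδ0] at hj2
      constructor
      · linarith
      · linarith

lemma F_le (a : ℕ → ℂ) (ha : ∀ n, ‖a n‖ ≤ 1) (R : ℕ) (x : ℝ) : ‖F a R x‖ ≤ R := by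
  unfold F
  refine (norm_sum_le _ _).trans ?_
  have h : ∀ n ∈ Icc 1 R, ‖a n * e ((n : ℝ) * x)‖ ≤ 1 := by
    intro n _
    rw [norm_mul, e_norm, mul_one]
    exact ha n
  refine (Finset.sum_le_sum h).trans ?_
  simp

/-- the exceptional parameters -/
def Ex {X : Type} (E : Set X) (G : X → ℝ → ℝ) (p q : ℝ) (a : ℕ → ℂ) (c : ℝ) : Set ℝ :=
  {y : ℝ | y ∈ Set.Icc p q ∧ ¬ ∃ C : ℝ, ∀ R : ℕ, 1 ≤ R → ∀ x ∈ E, ‖F a R (G x y)‖ ≤ C * (R : ℝ) ^ c}

lemma bound {X : Type} [PseudoMetricSpace X] {E : Set X} {d : ℝ} (hE : BoxLE E d) {G : X → ℝ → ℝ}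
    {p q m L : ℝ} (hG : Fam G p q m L) : ∃ A : ℕ, ∀ x ∈ E, ∀ y ∈ Set.Icc p q, |G x y| ≤ A := by
  obtain ⟨C, hC⟩ := hE 1 one_pos
  obtain ⟨S, -, hS⟩ := hC 1 one_pos le_rfl
  refine ⟨⌈∑ s ∈ S, |G s p| + L * |q - p| + L⌉₊, fun x hx y hy => ?_⟩
  obtain ⟨s, hs, hsx⟩ := hS x hx
  have hpq : p ≤ q := hy.1.trans hy.2
  have h1 := hG.lip x s y hy
  have h2 := hG.up s y hy p ⟨le_rfl, hpq⟩
  have h3 : |G s p| ≤ ∑ s ∈ S, |G s p| :=
    Finset.single_le_sum (f := fun s => |G s p|) (fun _ _ => abs_nonneg _) hs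
  have h4 : L * dist x s ≤ L := by
    have := mul_le_mul_of_nonneg_left hsx hG.nonneg
    linarith
  have h5 : L * |y - p| ≤ L * |q - p| := by
    apply mul_le_mul_of_nonneg_left _ hG.nonneg
    rw [abs_of_nonneg (by linarith [hy.1]), abs_of_nonneg (by linarith)]
    linarith [hy.2]
  refine le_trans ?_ (Nat.le_ceil _)
  have h6 : G x y = (G x y - G s y) + (G s y - G s p) + G s p := by ring
  have h7 := abs_add_three (G x y - G s y) (G s y - G s p) (G s p)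
  rw [← h6] at h7
  linarith

theorem fam_dim {X : Type} [PseudoMetricSpace X] {E : Set X} {d : ℝ} (hd : 0 ≤ d) (hE : BoxLE E d)
    {G : X → ℝ → ℝ} {p q m L : ℝ} (hG : Fam G p q m L) (a : ℕ → ℂ) (ha : ∀ n, ‖a n‖ ≤ 1) (c : ℝ)
    (hc0 : 0 ≤ c) (hc : c ≤ 1) : dimH (Ex E G p q a c) ≤ ENNReal.ofReal (2 - 2 * c + d) := by
  obtain ⟨A, hA⟩ := bound hE hG
  have hsub : Ex E G p q a c ⊆ {y : ℝ | ∀ i1 : ℕ, ∃ i : ℕ, i1 ≤ i ∧ y ∈ Vs E G p q a c i} := by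
    rintro y ⟨hy, hx⟩ i1
    push Not at hx
    obtain ⟨R, hR1, x, hxE, hR⟩ := hx ((2 : ℝ) ^ i1 + 1)
    have hR0 : (1 : ℝ) ≤ (R : ℝ) := by exact_mod_cast hR1
    have hRc : (1 : ℝ) ≤ (R : ℝ) ^ c := Real.one_le_rpow hR0 hc0
    have h2i : (0 : ℝ) < 2 ^ i1 := by positivity
    have hbig : 2 ^ i1 ≤ R := by
      by_contra hcon
      push Not at hcon
      have h1 := F_le a ha R (G x y)
      have h2 : (R : ℝ) < 2 ^ i1 := by exact_mod_cast hcon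
      nlinarith
    set i : ℕ := Nat.log 2 R with hi
    have hi1 : 2 ^ i ≤ R := Nat.pow_log_le_self 2 (by omega)
    have hi2 : R < 2 ^ (i + 1) := Nat.lt_pow_succ_log_self (by norm_num) R
    refine ⟨i, Nat.le_log_of_pow_le (by norm_num) hbig, hy, x, hxE, R, hi2.le, ?_⟩
    have h2 : ((2 : ℝ) ^ i) ^ c ≤ (R : ℝ) ^ c :=
      Real.rpow_le_rpow (by positivity) (by exact_mod_cast hi1) hc0
    nlinarith
  refine (dimH_mono hsub).trans ?_
  have hD : ∀ D : ℝ, 2 - 2 * c + d < D →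
      dimH {y : ℝ | ∀ i1 : ℕ, ∃ i : ℕ, i1 ≤ i ∧ y ∈ Vs E G p q a c i} ≤ ENNReal.ofReal D := by
    intro D hD
    set η : ℝ := (D - (2 - 2 * c + d)) / 4 with hη
    have hη0 : 0 < η := by rw [hη]; linarith
    obtain ⟨K, hK, hcov⟩ := fam_cover hG A hA a c
    obtain ⟨CE, hCE⟩ := hE η hη0
    obtain ⟨i0, hi0⟩ := eventually_small c (2 - 2 * c + η) (by linarith)
    obtain ⟨i2, hi2⟩ : ∃ i2 : ℕ, ∀ i : ℕ, i2 ≤ i → K * CE ≤ ((2 : ℝ) ^ i) ^ η := by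
      have h1 : (1 : ℝ) < (2 : ℝ) ^ η := Real.one_lt_rpow (by norm_num) hη0
      have h2 := (tendsto_pow_atTop_atTop_of_one_lt h1).eventually_ge_atTop (K * CE)
      obtain ⟨i2, hi2⟩ := h2.exists_forall_of_atTop
      refine ⟨i2, fun i hi => (hi2 i hi).trans (le_of_eq ?_)⟩
      rw [← Real.rpow_natCast ((2 : ℝ) ^ η), ← Real.rpow_mul (by norm_num), mul_comm,
        Real.rpow_mul (by norm_num), Real.rpow_natCast]
    refine Pool.Agent.TH181.MW.S_DIMG_t (D - η) 1 D (Vs E G p q a c) (by norm_num)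
      (by linarith) (by linarith) ⟨max i0 i2, fun i hi => ?_⟩
    obtain ⟨S2, hS2, hcov2⟩ := cover a ha c i
    set δ : ℝ := ((2 : ℝ) ^ i) ^ (-(1 : ℝ)) with hδ
    have h2i : (0 : ℝ) < (2 : ℝ) ^ i := by positivity
    have hδ0 : 0 < δ := by positivity
    have hδ1 : δ ≤ 1 := by
      rw [hδ, Real.rpow_neg_one]
      exact inv_le_one_of_one_le₀ (one_le_pow₀ (by norm_num))
    obtain ⟨S1, hS1, hcov1⟩ := hCE δ hδ0 hδ1
    obtain ⟨T, hT, hcovT⟩ := hcov i S1 hcov1 S2 hcov2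
    refine ⟨T, ?_, hcovT⟩
    have e1 : δ ^ (-(d + η)) = ((2 : ℝ) ^ i) ^ (d + η) := by
      rw [hδ, ← Real.rpow_mul h2i.le]
      congr 1
      ring
    rw [e1] at hS1
    have hS2' := hS2.trans (hi0 i (le_of_max_le_left hi))
    have hKC := hi2 i (le_of_max_le_right hi)
    have hs1 : (0 : ℝ) ≤ S1.card := Nat.cast_nonneg _
    calc (T.card : ℝ) ≤ K * S1.card * S2.card := hT
      _ ≤ K * S1.card * ((2 : ℝ) ^ i) ^ (2 - 2 * c + η) :=
          mul_le_mul_of_nonneg_left hS2' (by positivity)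
      _ ≤ K * (CE * ((2 : ℝ) ^ i) ^ (d + η)) * ((2 : ℝ) ^ i) ^ (2 - 2 * c + η) := by
          apply mul_le_mul_of_nonneg_right _ (by positivity)
          exact mul_le_mul_of_nonneg_left hS1 hK.le
      _ = (K * CE) * (((2 : ℝ) ^ i) ^ (d + η) * ((2 : ℝ) ^ i) ^ (2 - 2 * c + η)) := by ring
      _ ≤ ((2 : ℝ) ^ i) ^ η * (((2 : ℝ) ^ i) ^ (d + η) * ((2 : ℝ) ^ i) ^ (2 - 2 * c + η)) :=
          mul_le_mul_of_nonneg_right hKC (by positivity)
      _ = ((2 : ℝ) ^ i) ^ (D - η) := by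
          rw [← Real.rpow_add h2i, ← Real.rpow_add h2i]
          congr 1
          rw [hη]
          ring
  refine ENNReal.le_of_forall_pos_le_add ?_
  intro ε hε _
  have h1 := hD (2 - 2 * c + d + ε) (by have : (0 : ℝ) < ε := hε; linarith)
  rw [ENNReal.ofReal_add (by linarith) ε.coe_nonneg, ENNReal.ofReal_coe_nnreal] at h1
  exact h1

theorem fam_ae {X : Type} [PseudoMetricSpace X] {E : Set X} {d : ℝ} (hd : 0 ≤ d) (hd1 : d ≤ 1)
    (hE : BoxLE E d)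
    {G : X → ℝ → ℝ} {p q m L : ℝ} (hG : Fam G p q m L) (a : ℕ → ℂ) (ha : ∀ n, ‖a n‖ ≤ 1) :
    ∀ᵐ y : ℝ, y ∈ Set.Icc p q → ∀ ε : ℝ, 0 < ε → ∃ C : ℝ, ∀ R : ℕ, 1 ≤ R → ∀ x ∈ E,
      ‖F a R (G x y)‖ ≤ C * (R : ℝ) ^ ((1 + d) / 2 + ε) := by
  have h1 : ∀ k : ℕ, ∀ᵐ y : ℝ, y ∉ Ex E G p q a (min 1 ((1 + d) / 2 + 1 / ((k : ℝ) + 1))) := by
    intro k
    have h2 : (0 : ℝ) < 1 / ((k : ℝ) + 1) := by positivity
    set c : ℝ := min 1 ((1 + d) / 2 + 1 / ((k : ℝ) + 1)) with hc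
    by_cases h3 : (1 + d) / 2 < c
    · have h4 := fam_dim hd hE hG a ha c (by linarith) (min_le_left _ _)
      have h5 : dimH (Ex E G p q a c) < 1 := by
        refine h4.trans_lt ?_
        rw [← ENNReal.ofReal_one]
        exact (ENNReal.ofReal_lt_ofReal_iff (by norm_num)).mpr (by linarith)
      have h6 : MeasureTheory.Measure.hausdorffMeasure (1 : ℝ) (Ex E G p q a c) = 0 := by
        have := hausdorffMeasure_of_dimH_lt (d := 1) (s := Ex E G p q a c) (by exact_mod_cast h5)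
        exact_mod_cast this
      rw [MeasureTheory.hausdorffMeasure_real] at h6
      have h7 : ∀ᵐ y : ℝ, y ∈ (Ex E G p q a c)ᶜ := by
        rw [MeasureTheory.ae_iff]
        simpa using h6
      exact h7
    · -- then `c = 1` and the bound is trivial
      have h8 : c = 1 := by
        rcases min_choice 1 ((1 + d) / 2 + 1 / ((k : ℝ) + 1)) with h | h
        · exact h
        · exfalso
          apply h3
          rw [hc, h]
          linarith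
      refine Filter.Eventually.of_forall fun y hy => hy.2 ⟨1, fun R hR x _ => ?_⟩
      rw [h8, one_mul, Real.rpow_one]
      exact F_le a ha R _
  rw [← MeasureTheory.ae_all_iff] at h1
  filter_upwards [h1] with y hy hypq ε hε
  obtain ⟨k, hk⟩ := exists_nat_gt (1 / ε)
  have hk1 : 1 / ((k : ℝ) + 1) ≤ ε := by
    rw [div_le_iff₀ (by positivity)]
    rw [div_lt_iff₀ hε] at hk
    nlinarith
  have h2 := hy k
  unfold Ex at h2
  simp only [Set.mem_setOf_eq, not_and, not_not] at h2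
  obtain ⟨C, hC⟩ := h2 hypq
  refine ⟨max C 0, fun R hR x hx => (hC R hR x hx).trans ?_⟩
  have hR1 : (1 : ℝ) ≤ (R : ℝ) := by exact_mod_cast hR
  refine mul_le_mul (le_max_left _ _) (Real.rpow_le_rpow_of_exponent_le hR1 ?_)
    (by positivity) (le_max_right _ _)
  exact (min_le_right _ _).trans (by linarith)

end Pool.Agent.Q36.DM
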