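import Pool.Agent.Q36.DM.Unif

/-! # Affine maps modulo one have bounded densities; summability of the heights -/

set_option autoImplicit false

open Finset MeasureTheory

namespace Pool.Agent.Q36.DM

lemma law (t b : ℝ) (ht : 1 ≤ |t|) (N : ℕ) (A : Set ℝ) :
    (volume.restrict (Set.Icc (-(N : ℝ)) N)) {x : ℝ | Int.fract (t * x + b) ∈ A} ≤
      (2 * N + 2 : ℕ) * volume A := by
  have ht0 : t ≠ 0 := by
    intro h
    rw [h, abs_zero] at ht
    linarith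
  have htp : 0 < |t| := by linarith
  rw [Measure.restrict_apply' measurableSet_Icc]
  set M := Finset.Icc ⌊-(|t| * N) + b⌋ ⌊|t| * N + b⌋ with hM
  have hsub : {x : ℝ | Int.fract (t * x + b) ∈ A} ∩ Set.Icc (-(N : ℝ)) N ⊆
      ⋃ m ∈ M, {x : ℝ | t * x + (b - m) ∈ A} := by
    rintro x ⟨hx, hxN⟩
    have h1 : |t * x| ≤ |t| * N := by
      rw [abs_mul]
      exact mul_le_mul_of_nonneg_left (abs_le.2 ⟨hxN.1, hxN.2⟩) (abs_nonneg _)
    have h2 := abs_le.1 h1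
    rw [Set.mem_iUnion₂]
    refine ⟨⌊t * x + b⌋, ?_, ?_⟩
    · rw [hM, Finset.mem_Icc]
      exact ⟨Int.floor_le_floor (by linarith), Int.floor_le_floor (by linarith)⟩
    · have h3 : t * x + (b - ⌊t * x + b⌋) = Int.fract (t * x + b) := by
        unfold Int.fract
        ring
      show t * x + (b - ⌊t * x + b⌋) ∈ A
      rw [h3]
      exact hx
  have hvol : ∀ m ∈ M, volume {x : ℝ | t * x + (b - (m : ℝ)) ∈ A} = ENNReal.ofReal |t⁻¹| * volume A := by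
    intro m _
    have e1 : {x : ℝ | t * x + (b - (m : ℝ)) ∈ A} = (fun x => t * x) ⁻¹' ((fun y => y + (b - (m : ℝ))) ⁻¹' A) := rfl
    rw [e1, Real.volume_preimage_mul_left ht0, measure_preimage_add_right]
  refine (measure_mono hsub).trans ((measure_biUnion_finset_le M _).trans ?_)
  rw [Finset.sum_congr rfl hvol, sum_const, nsmul_eq_mul, ← mul_assoc]
  gcongr
  have hcard : (M.card : ℝ) ≤ 2 * (|t| * N) + 2 := by
    rw [hM, Int.card_Icc]
    have h1 : ⌊-(|t| * N) + b⌋ ≤ ⌊|t| * N + b⌋ := Int.floor_le_floor (by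
      have : 0 ≤ |t| * N := by positivity
      linarith)
    have h2 : (((⌊|t| * N + b⌋ + 1 - ⌊-(|t| * N) + b⌋).toNat : ℤ) : ℝ) =
        ((⌊|t| * N + b⌋ + 1 - ⌊-(|t| * N) + b⌋ : ℤ) : ℝ) := by
      rw [Int.toNat_of_nonneg (by omega)]
    have h3 : (((⌊|t| * N + b⌋ + 1 - ⌊-(|t| * N) + b⌋).toNat : ℕ) : ℝ) =
        ((⌊|t| * N + b⌋ + 1 - ⌊-(|t| * N) + b⌋ : ℤ) : ℝ) := by
      rw [← h2]
      norm_cast
    rw [h3]
    push_cast
    have h4 := Int.floor_le (|t| * N + b)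
    have h5 := Int.lt_floor_add_one (-(|t| * N) + b)
    linarith
  have h6 : (M.card : ENNReal) * ENNReal.ofReal |t⁻¹| = ENNReal.ofReal (M.card * |t⁻¹|) := by
    rw [ENNReal.ofReal_mul (Nat.cast_nonneg _), ENNReal.ofReal_natCast]
  rw [h6]
  have h7 : (M.card : ℝ) * |t⁻¹| ≤ ((2 * N + 2 : ℕ) : ℝ) := by
    rw [abs_inv, ← div_eq_mul_inv, div_le_iff₀ htp]
    push_cast
    nlinarith
  refine (ENNReal.ofReal_le_ofReal h7).trans ?_
  rw [ENNReal.ofReal_natCast]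

/-- the affine version on the whole line -/
theorem unif_affine {J : Type} [Countable J] (a : J → ℕ → ℂ) (ha : ∀ j n, ‖a j n‖ ≤ 1)
    (t b : J → ℝ) (ht : ∀ j, 1 ≤ |t j|) (h : J → ℝ)
    (h1 : ∀ j, 1 ≤ h j) (hs : ∀ s : ℝ, 1 < s → Summable fun j => (h j) ^ (-s)) :
    ∀ᵐ x : ℝ, ∀ ε : ℝ, 0 < ε → ∃ C : ℝ, ∀ j : J, ∀ R : ℕ, 1 ≤ R →
      ‖F (a j) R (t j * x + b j)‖ ≤ C * (h j * R) ^ (1 / 2 + ε) := by
  have main : ∀ᵐ x : ℝ, ∀ N : ℕ, x ∈ Set.Icc (-(N : ℝ)) N → ∀ ε : ℝ, 0 < ε → ∃ C : ℝ, ∀ j : J,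
      ∀ R : ℕ, 1 ≤ R → ‖F (a j) R (t j * x + b j)‖ ≤ C * (h j * R) ^ (1 / 2 + ε) := by
    rw [ae_all_iff]
    intro N
    rw [← ae_restrict_iff' measurableSet_Icc]
    exact unif (volume.restrict (Set.Icc (-(N : ℝ)) N)) a ha (fun j x => t j * x + b j)
      ((2 * N + 2 : ℕ) : ENNReal) (ENNReal.natCast_ne_top _)
      (fun j A => law (t j) (b j) (ht j) N A) h h1 hs
  filter_upwards [main] with x hx
  obtain ⟨N, hN⟩ := exists_nat_ge |x|
  exact hx N ⟨(abs_le.1 hN).1, (abs_le.1 hN).2⟩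

/-- summability over a family with at most `m + 1` members of height `(m + 1) ^ 2` -/
lemma sum_fib {ι : ℕ → Type} [∀ m, Finite (ι m)] (hι : ∀ m, Nat.card (ι m) ≤ m + 1) (s : ℝ) (hs : 1 < s) :
    Summable fun z : (Σ m, ι m) => (((z.1 : ℝ) + 1) ^ 2) ^ (-s) := by
  rw [summable_sigma_of_nonneg (fun z => by positivity)]
  constructor
  · intro m
    have : Fintype (ι m) := Fintype.ofFinite _
    exact (hasSum_fintype _).summable
  · have h0 : Summable fun m : ℕ => ((m + 1 : ℕ) : ℝ) ^ (1 - 2 * s) := by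
      have := (Real.summable_nat_rpow (p := 1 - 2 * s)).2 (by linarith)
      exact (summable_nat_add_iff 1).2 this
    refine Summable.of_nonneg_of_le (fun m => tsum_nonneg fun _ => by positivity) (fun m => ?_) h0
    have : Fintype (ι m) := Fintype.ofFinite _
    rw [tsum_fintype]
    change ∑ _b : ι m, (((m : ℝ) + 1) ^ 2) ^ (-s) ≤ _
    rw [sum_const, card_univ, nsmul_eq_mul, ← Nat.card_eq_fintype_card]
    have h2 : (0 : ℝ) < ((m : ℝ) + 1) := by positivity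
    have h3 : (Nat.card (ι m) : ℝ) ≤ (m : ℝ) + 1 := by exact_mod_cast hι m
    have e1 : (((m : ℝ) + 1) ^ 2) ^ (-s) = ((m : ℝ) + 1) ^ (-(2 * s)) := by
      rw [← Real.rpow_natCast, ← Real.rpow_mul h2.le]
      congr 1
      push_cast
      ring
    rw [e1]
    calc (Nat.card (ι m) : ℝ) * ((m : ℝ) + 1) ^ (-(2 * s)) ≤
        ((m : ℝ) + 1) * ((m : ℝ) + 1) ^ (-(2 * s)) := mul_le_mul_of_nonneg_right h3 (by positivity)
      _ = ((m + 1 : ℕ) : ℝ) ^ (1 - 2 * s) := by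
          push_cast
          rw [sub_eq_add_neg, Real.rpow_add h2, Real.rpow_one]

end Pool.Agent.Q36.DM
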