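import Pool.Agent.TH181.MW.Max
import Pool.Agent.TH181.MW.Cov
import Pool.Agent.Y933.KI.Dyad

/-! # Large values of trigonometric sums with bounded coefficients: counting on a grid -/

set_option autoImplicit false

open Finset

namespace Pool.Agent.Q36.DM

open Pool.Agent.W928.MW (e e_add e_norm e_lip)

/-- the trigonometric sum -/
noncomputable def F (a : ℕ → ℂ) (R : ℕ) (x : ℝ) : ℂ := ∑ n ∈ Icc 1 R, a n * e ((n : ℝ) * x)

lemma F_range (a : ℕ → ℂ) (R : ℕ) (x : ℝ) :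
    F a R x = ∑ k ∈ range R, a (k + 1) * e (((k + 1 : ℕ) : ℝ) * x) := by
  unfold F
  rw [Pool.Agent.TH181.MW.sum_Icc_range]

lemma e_conj (x : ℝ) : (starRingEnd ℂ) (e x) = e (-x) := by
  unfold Pool.Agent.W928.MW.e
  rw [← Complex.exp_conj]
  congr 1
  simp only [map_mul, Complex.conj_ofReal, Complex.conj_I, map_ofNat]
  push_cast
  ring

lemma e_zero : e 0 = 1 := by
  unfold Pool.Agent.W928.MW.e
  simp

/-- discrete Parseval for a block -/
lemma pars (c : ℕ → ℂ) (M P H : ℕ) (hM : 1 ≤ M) (hH : H ≤ M) :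
    ∑ j ∈ range M, ‖∑ i ∈ range H, c i * e (((P + i : ℕ) : ℝ) * ((j : ℝ) / M))‖ ^ 2 =
      M * ∑ i ∈ range H, ‖c i‖ ^ 2 := by
  have key : ∀ j ∈ range M, ((‖∑ i ∈ range H, c i * e (((P + i : ℕ) : ℝ) * ((j : ℝ) / M))‖ ^ 2 : ℝ) : ℂ) =
      ∑ i ∈ range H, ∑ k ∈ range H, c i * (starRingEnd ℂ) (c k) *
        e (((((i + 1 : ℕ) : ℝ)) - ((k + 1 : ℕ) : ℝ)) / M * j) := by
    intro j _
    rw [← Complex.normSq_eq_norm_sq, ← Complex.mul_conj, map_sum, Finset.sum_mul_sum]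
    refine Finset.sum_congr rfl (fun i _ => Finset.sum_congr rfl (fun k _ => ?_))
    rw [map_mul, e_conj]
    have h : ((((i + 1 : ℕ) : ℝ)) - ((k + 1 : ℕ) : ℝ)) / M * j =
        ((P + i : ℕ) : ℝ) * ((j : ℝ) / M) + -(((P + k : ℕ) : ℝ) * ((j : ℝ) / M)) := by
      push_cast
      ring
    rw [h, e_add]
    ring
  have h1 : ((∑ j ∈ range M, ‖∑ i ∈ range H, c i * e (((P + i : ℕ) : ℝ) * ((j : ℝ) / M))‖ ^ 2 : ℝ) : ℂ) =
      ((M * ∑ i ∈ range H, ‖c i‖ ^ 2 : ℝ) : ℂ) := by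
    rw [Complex.ofReal_sum, Finset.sum_congr rfl key, Finset.sum_comm]
    push_cast
    rw [Finset.mul_sum]
    refine Finset.sum_congr rfl (fun i hi => ?_)
    rw [Finset.sum_comm]
    have h2 : ∀ k ∈ range H, ∑ j ∈ range M, c i * (starRingEnd ℂ) (c k) *
        e (((((i + 1 : ℕ) : ℝ)) - ((k + 1 : ℕ) : ℝ)) / M * j) =
        if k = i then (M : ℂ) * (‖c i‖ : ℂ) ^ 2 else 0 := by
      intro k hk
      rw [mem_range] at hi hk
      rw [← Finset.mul_sum, Pool.Agent.TH181.MW.orth M hM (i + 1) (k + 1)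
        (Finset.mem_Icc.mpr ⟨by omega, by omega⟩) (Finset.mem_Icc.mpr ⟨by omega, by omega⟩)]
      by_cases h : k = i
      · subst h
        simp only [if_true]
        rw [Complex.mul_conj, Complex.normSq_eq_norm_sq]
        push_cast
        ring
      · rw [if_neg (by omega), if_neg h, mul_zero]
    have h3 := Finset.sum_congr rfl h2
    push_cast at h3 ⊢
    rw [h3, Finset.sum_ite_eq' (range H) i, if_pos hi]
  exact_mod_cast h1

/-- the number of grid points where some initial sum is large -/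
lemma count (a : ℕ → ℂ) (ha : ∀ n, ‖a n‖ ≤ 1) (L M : ℕ) (hLM : 2 ^ L ≤ M) (T : ℝ) (hT : 0 < T)
    (J : Finset ℕ) (hJ : J ⊆ range M)
    (hJT : ∀ j ∈ J, ∃ p : ℕ, p ≤ 2 ^ L ∧ T ≤ ‖F a p ((j : ℝ) / M)‖) :
    (J.card : ℝ) ≤ ((L : ℝ) + 1) ^ 2 * 2 ^ L * M / T ^ 2 := by
  have hM : 1 ≤ M := le_trans Nat.one_le_two_pow hLM
  set G : ℕ → ℝ := fun j => (L + 1) * ∑ l ∈ Finset.range (L + 1),
      ∑ q ∈ Finset.range (2 ^ (L - l)), ‖∑ i ∈ Finset.range (2 ^ l),
        a (q * 2 ^ l + i + 1) * e (((q * 2 ^ l + i + 1 : ℕ) : ℝ) * ((j : ℝ) / M))‖ ^ 2 with hG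
  have h1 : ∀ j ∈ J, T ^ 2 ≤ G j := by
    intro j hj
    obtain ⟨p, hp, hTp⟩ := hJT j hj
    refine (pow_le_pow_left₀ hT.le hTp 2).trans ?_
    rw [F_range]
    exact Pool.Agent.Y933.KI.dyad (fun k => a (k + 1) * e (((k + 1 : ℕ) : ℝ) * ((j : ℝ) / M))) hp
  have h2 : ∑ j ∈ range M, G j ≤ ((L : ℝ) + 1) ^ 2 * 2 ^ L * M := by
    rw [hG]
    rw [← Finset.mul_sum, Finset.sum_comm]
    have h3 : ∀ l ∈ Finset.range (L + 1), ∑ j ∈ range M, ∑ q ∈ Finset.range (2 ^ (L - l)),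
        ‖∑ i ∈ Finset.range (2 ^ l),
        a (q * 2 ^ l + i + 1) * e (((q * 2 ^ l + i + 1 : ℕ) : ℝ) * ((j : ℝ) / M))‖ ^ 2 ≤ 2 ^ L * M := by
      intro l hl
      rw [mem_range] at hl
      rw [Finset.sum_comm]
      have h4 : ∀ q ∈ Finset.range (2 ^ (L - l)), ∑ j ∈ range M, ‖∑ i ∈ Finset.range (2 ^ l),
        a (q * 2 ^ l + i + 1) * e (((q * 2 ^ l + i + 1 : ℕ) : ℝ) * ((j : ℝ) / M))‖ ^ 2 ≤ M * 2 ^ l := by
        intro q _
        have h5 := pars (fun i => a (q * 2 ^ l + i + 1)) M (q * 2 ^ l + 1) (2 ^ l) hM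
          (le_trans (Nat.pow_le_pow_right (by norm_num) (by omega)) hLM)
        have h6 : ∀ i : ℕ, q * 2 ^ l + 1 + i = q * 2 ^ l + i + 1 := fun i => by ring
        simp only [h6] at h5
        rw [h5]
        refine mul_le_mul_of_nonneg_left ?_ (by positivity)
        have h7 : ∀ i ∈ range (2 ^ l), ‖a (q * 2 ^ l + i + 1)‖ ^ 2 ≤ 1 := by
          intro i _
          have := ha (q * 2 ^ l + i + 1)
          nlinarith [norm_nonneg (a (q * 2 ^ l + i + 1))]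
        refine (Finset.sum_le_sum h7).trans (le_of_eq ?_)
        simp
      refine (Finset.sum_le_sum h4).trans (le_of_eq ?_)
      rw [Finset.sum_const, card_range, nsmul_eq_mul]
      push_cast
      have h8 : (2 : ℝ) ^ (L - l) * 2 ^ l = 2 ^ L := by
        rw [← pow_add, Nat.sub_add_cancel (by omega)]
      rw [← h8]
      ring
    refine (mul_le_mul_of_nonneg_left (Finset.sum_le_sum h3) (by positivity)).trans (le_of_eq ?_)
    rw [Finset.sum_const, card_range, nsmul_eq_mul]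
    push_cast
    ring
  have h9 : (J.card : ℝ) * T ^ 2 ≤ ((L : ℝ) + 1) ^ 2 * 2 ^ L * M := by
    have h10 : (J.card : ℝ) * T ^ 2 ≤ ∑ j ∈ J, G j := by
      rw [← nsmul_eq_mul]
      exact Finset.card_nsmul_le_sum J G (T ^ 2) h1
    refine h10.trans (le_trans ?_ h2)
    refine Finset.sum_le_sum_of_subset_of_nonneg hJ (fun j _ _ => ?_)
    rw [hG]
    positivity
  rw [le_div_iff₀ (by positivity)]
  exact h9

/-- local constancy -/
lemma near (a : ℕ → ℂ) (N M : ℕ) (x y B δ : ℝ) (hM : M ≤ N) (hB : 0 ≤ B) (hδ : |x - y| ≤ δ)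
    (h : ∀ m : ℕ, m ≤ N → ‖F a m y‖ ≤ B) : ‖F a M x‖ ≤ B * (1 + 2 * Real.pi * (N * δ)) := by
  have hδ0 : 0 ≤ δ := (abs_nonneg _).trans hδ
  have h1 : F a M x = ∑ k ∈ range M, e (((k : ℝ)) * (x - y)) *
      (e (x - y) * (a (k + 1) * e (((k + 1 : ℕ) : ℝ) * y))) := by
    rw [F_range]
    apply Finset.sum_congr rfl
    intro k _
    have h2 : ((k + 1 : ℕ) : ℝ) * x = (k : ℝ) * (x - y) + ((x - y) + ((k + 1 : ℕ) : ℝ) * y) := by
      push_cast; ring
    rw [h2, e_add, e_add]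
    ring
  rw [h1]
  refine Pool.Agent.H520R3.abel_bound (fun k : ℕ => e (((k : ℝ)) * (x - y)))
    (fun k : ℕ => e (x - y) * (a (k + 1) * e (((k + 1 : ℕ) : ℝ) * y))) B (2 * Real.pi * (N * δ)) hB M
    ?_ (fun _ => (e_norm _).le) ?_
  · intro X hX
    rw [← Finset.mul_sum, norm_mul, e_norm, one_mul, ← F_range]
    exact h X (hX.trans hM)
  · have h4 : ∀ k ∈ range M, ‖e (((k + 1 : ℕ) : ℝ) * (x - y)) - e (((k : ℝ)) * (x - y))‖ ≤
        2 * Real.pi * δ := by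
      intro k _
      refine (e_lip _ _).trans ?_
      have h5 : ((k + 1 : ℕ) : ℝ) * (x - y) - (k : ℝ) * (x - y) = x - y := by push_cast; ring
      rw [h5]
      exact mul_le_mul_of_nonneg_left hδ (by positivity)
    refine (Finset.sum_le_sum h4).trans ?_
    rw [Finset.sum_const, card_range, nsmul_eq_mul]
    have hMN : (M : ℝ) ≤ N := by exact_mod_cast hM
    have : (M : ℝ) * (2 * Real.pi * δ) ≤ (N : ℝ) * (2 * Real.pi * δ) :=
      mul_le_mul_of_nonneg_right hMN (by positivity)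
    linarith

end Pool.Agent.Q36.DM
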