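import Pool.Agent.Q36.DM.Dim

/-! # Rational dilations and periodic weights -/

set_option autoImplicit false

open Finset

namespace Pool.Agent.Q36.DM

open Pool.Agent.W928.MW (e e_add e_norm e_lip)

/-- the exceptional set in `[0,1]` -/
def E01 (a : ℕ → ℂ) (c : ℝ) : Set ℝ :=
  {x : ℝ | x ∈ Set.Icc (0 : ℝ) 1 ∧ ¬ ∃ C : ℝ, ∀ R : ℕ, 1 ≤ R → ‖F a R x‖ ≤ C * (R : ℝ) ^ c}

lemma F_add_int (a : ℕ → ℂ) (R : ℕ) (x : ℝ) (k : ℤ) : F a R (x + k) = F a R x := by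
  unfold F
  refine Finset.sum_congr rfl (fun n _ => ?_)
  have h1 : (n : ℝ) * (x + k) = (n : ℝ) * x + (((n : ℤ) * k : ℤ) : ℝ) := by push_cast; ring
  rw [h1, e_add]
  have h2 : e (((n : ℤ) * k : ℤ) : ℝ) = 1 := by
    rw [Pool.Agent.TH181.MW.e_eq]
    exact Pool.Agent.H520R3.e_int _
  rw [h2, mul_one]

/-- the coefficients restricted to a residue class -/
noncomputable def res (a : ℕ → ℂ) (q b : ℕ) (n : ℕ) : ℂ := if n % q = b then a n else 0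

lemma res_le (a : ℕ → ℂ) (ha : ∀ n, ‖a n‖ ≤ 1) (q b n : ℕ) : ‖res a q b n‖ ≤ 1 := by
  unfold res
  split_ifs
  · exact ha n
  · simp

/-- the set where all dilations and all periodic weights behave well -/
def Good (a : ℕ → ℂ) (c : ℝ) : Set ℝ :=
  {x : ℝ | ∀ r : ℚ, r ≠ 0 → ∀ q : ℕ, 0 < q → ∀ g : ℕ → ℂ, (∀ n, g (n + q) = g n) →
    ∃ C : ℝ, ∀ R : ℕ, 1 ≤ R → ‖∑ n ∈ Icc 1 R, a n * g n * e ((n : ℝ) * ((r : ℝ) * x))‖ ≤ C * (R : ℝ) ^ c}

lemma bad_subset (a : ℕ → ℂ) (c : ℝ) :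
    (Good a c)ᶜ ⊆ ⋃ z : ℚ × ℕ × ℕ × ℤ, (fun y : ℝ => (y + (z.2.2.2 : ℝ)) / (z.1 : ℝ)) '' E01 (res a z.2.1 z.2.2.1) c := by
  intro x hx
  by_contra hcon
  apply hx
  intro r hr q hq g hg
  have hr' : (r : ℝ) ≠ 0 := by exact_mod_cast hr
  -- every residue class is good
  have h1 : ∀ b : ℕ, ∃ C : ℝ, ∀ R : ℕ, 1 ≤ R → ‖F (res a q b) R ((r : ℝ) * x)‖ ≤ C * (R : ℝ) ^ c := by
    intro b
    by_contra hb
    apply hcon
    rw [Set.mem_iUnion]
    refine ⟨(r, q, b, ⌊(r : ℝ) * x⌋), ?_⟩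
    refine ⟨Int.fract ((r : ℝ) * x), ⟨⟨Int.fract_nonneg _, (Int.fract_lt_one _).le⟩, ?_⟩, ?_⟩
    · rintro ⟨C, hC⟩
      apply hb
      refine ⟨C, fun R hR => ?_⟩
      have h2 := hC R hR
      rw [← F_add_int _ R _ ⌊(r : ℝ) * x⌋, Int.fract_add_floor] at h2
      exact h2
    · simp only
      rw [Int.fract_add_floor]
      field_simp
  choose C hC using h1
  have hg2 : ∀ n, g n = g (n % q) := by
    intro n
    have hp : Function.Periodic g q := hg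
    exact (hp.map_mod_nat n).symm
  refine ⟨∑ b ∈ range q, ‖g b‖ * C b, fun R hR => ?_⟩
  have h3 : ∑ n ∈ Icc 1 R, a n * g n * e ((n : ℝ) * ((r : ℝ) * x)) =
      ∑ b ∈ range q, g b * F (res a q b) R ((r : ℝ) * x) := by
    unfold F
    simp only [Finset.mul_sum]
    rw [Finset.sum_comm]
    refine Finset.sum_congr rfl (fun n _ => ?_)
    rw [Finset.sum_eq_single (n % q)]
    · unfold res
      rw [if_pos rfl, hg2 n]
      ring
    · intro b _ hb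
      unfold res
      rw [if_neg (fun h => hb h.symm)]
      ring
    · intro h
      exact absurd (mem_range.mpr (Nat.mod_lt _ hq)) h
  rw [h3]
  refine (norm_sum_le _ _).trans ?_
  rw [Finset.sum_mul]
  refine Finset.sum_le_sum (fun b _ => ?_)
  rw [norm_mul, mul_assoc]
  exact mul_le_mul_of_nonneg_left (hC b R hR) (norm_nonneg _)

theorem dim_twist (a : ℕ → ℂ) (ha : ∀ n, ‖a n‖ ≤ 1) (c : ℝ) (hc0 : 0 ≤ c) (hc : c ≤ 1) :
    dimH (Good a c)ᶜ ≤ ENNReal.ofReal (2 - 2 * c) := by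
  refine (dimH_mono (bad_subset a c)).trans ?_
  rw [dimH_iUnion]
  refine iSup_le (fun z => ?_)
  have hlip : LipschitzWith (Real.toNNReal |(z.1 : ℝ)⁻¹|) (fun y : ℝ => (y + (z.2.2.2 : ℝ)) / (z.1 : ℝ)) := by
    refine LipschitzWith.of_dist_le_mul (fun y y' => ?_)
    rw [Real.dist_eq, Real.dist_eq, Real.coe_toNNReal _ (abs_nonneg _)]
    have h : (y + (z.2.2.2 : ℝ)) / (z.1 : ℝ) - (y' + (z.2.2.2 : ℝ)) / (z.1 : ℝ) = (z.1 : ℝ)⁻¹ * (y - y') := by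
      rw [div_eq_mul_inv, div_eq_mul_inv]
      ring
    rw [h, abs_mul]
  refine (hlip.dimH_image_le _).trans ?_
  exact dim01 (res a z.2.1 z.2.2.1) (res_le a ha _ _) c hc0 hc

theorem ae_twist (a : ℕ → ℂ) (ha : ∀ n, ‖a n‖ ≤ 1) :
    ∀ᵐ x : ℝ, ∀ ε : ℝ, 0 < ε → x ∈ Good a (1 / 2 + ε) := by
  -- a sequence of exponents is enough
  have h1 : ∀ k : ℕ, ∀ᵐ x : ℝ, x ∈ Good a (1 / 2 + 1 / ((k : ℝ) + 3)) := by
    intro k
    have h2 : (0 : ℝ) < 1 / ((k : ℝ) + 3) := by positivity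
    have h3 : 1 / ((k : ℝ) + 3) ≤ 1 / 3 := by
      apply one_div_le_one_div_of_le (by norm_num)
      have : (0 : ℝ) ≤ k := Nat.cast_nonneg k
      linarith
    have h4 := dim_twist a ha (1 / 2 + 1 / ((k : ℝ) + 3)) (by linarith) (by linarith)
    have h5 : dimH (Good a (1 / 2 + 1 / ((k : ℝ) + 3)))ᶜ < 1 := by
      refine h4.trans_lt ?_
      rw [← ENNReal.ofReal_one]
      exact (ENNReal.ofReal_lt_ofReal_iff (by norm_num)).mpr (by linarith)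
    have h6 : MeasureTheory.Measure.hausdorffMeasure (1 : ℝ) (Good a (1 / 2 + 1 / ((k : ℝ) + 3)))ᶜ = 0 := by
      have := hausdorffMeasure_of_dimH_lt (d := 1) (s := (Good a (1 / 2 + 1 / ((k : ℝ) + 3)))ᶜ)
        (by exact_mod_cast h5)
      exact_mod_cast this
    rw [MeasureTheory.hausdorffMeasure_real] at h6
    exact h6
  rw [← MeasureTheory.ae_all_iff] at h1
  filter_upwards [h1] with x hx ε hε
  obtain ⟨k, hk⟩ := exists_nat_gt (1 / ε)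
  have hk1 : 1 / ((k : ℝ) + 3) ≤ ε := by
    rw [div_le_iff₀ (by positivity)]
    rw [div_lt_iff₀ hε] at hk
    nlinarith
  intro r hr q hq g hg
  obtain ⟨C, hC⟩ := hx k r hr q hq g hg
  refine ⟨max C 0, fun R hR => (hC R hR).trans ?_⟩
  have hR1 : (1 : ℝ) ≤ (R : ℝ) := by exact_mod_cast hR
  refine mul_le_mul (le_max_left _ _) (Real.rpow_le_rpow_of_exponent_le hR1 (by linarith))
    (by positivity) (le_max_right _ _)

end Pool.Agent.Q36.DM
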