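import Pool.Agent.Q36.DM.Fam

/-! # Bounds uniform over countable families, with polynomial dependence on the height -/

set_option autoImplicit false

open Finset MeasureTheory

namespace Pool.Agent.Q36.DM

open Pool.Agent.W928.MW (e e_add e_norm e_lip)

/-- measure of the bad set at one scale -/
lemma vol_Bs (a : ℕ → ℂ) (ha : ∀ n, ‖a n‖ ≤ 1) (c : ℝ) (i : ℕ) :
    volume (Bs a c i) ≤ ENNReal.ofReal (1024 * ((i : ℝ) + 2) ^ 2 * (2 : ℝ) ^ i / (((2 : ℝ) ^ i) ^ c) ^ 2) := by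
  obtain ⟨S, hS, hcov⟩ := cover a ha c i
  have h2 : (0 : ℝ) < (2 : ℝ) ^ i := by positivity
  refine (measure_mono hcov).trans ((measure_biUnion_finset_le S _).trans ?_)
  have h1 : ∀ x ∈ S, volume (Set.Icc x (x + ((2 : ℝ) ^ i) ^ (-(1 : ℝ)))) =
      ENNReal.ofReal (((2 : ℝ) ^ i) ^ (-(1 : ℝ))) := by
    intro x _
    rw [Real.volume_Icc]
    congr 1
    ring
  rw [Finset.sum_congr rfl h1, sum_const, nsmul_eq_mul, ← ENNReal.ofReal_natCast,
    ← ENNReal.ofReal_mul (Nat.cast_nonneg _)]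
  apply ENNReal.ofReal_le_ofReal
  refine (mul_le_mul_of_nonneg_right hS (by positivity)).trans (le_of_eq ?_)
  rw [Real.rpow_neg_one]
  field_simp

/-- the exponent at the scale `i` for the height `h` -/
noncomputable def cc (ε h : ℝ) (i : ℕ) : ℝ := (1 / 2 + ε) * (1 + Real.logb ((2 : ℝ) ^ i) h)

lemma cc_eq (ε h : ℝ) (hh : 0 < h) (i : ℕ) (hi : 1 ≤ i) :
    ((2 : ℝ) ^ i) ^ (cc ε h i) = (h * 2 ^ i) ^ (1 / 2 + ε) := by
  have h2 : (0 : ℝ) < (2 : ℝ) ^ i := by positivity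
  have h21 : (2 : ℝ) ^ i ≠ 1 := by
    have : (1 : ℝ) < 2 ^ i := one_lt_pow₀ (by norm_num) (by omega)
    linarith
  unfold cc
  rw [mul_comm (1 / 2 + ε), Real.rpow_mul h2.le, Real.rpow_add h2, Real.rpow_one,
    Real.rpow_logb h2 h21 hh, mul_comm h]

theorem unif {Ω : Type} [MeasurableSpace Ω] (P : Measure Ω) {J : Type} [Countable J] (a : J → ℕ → ℂ)
    (ha : ∀ j n, ‖a j n‖ ≤ 1) (φ : J → Ω → ℝ) (B : ENNReal) (hB : B ≠ ⊤)
    (hφ : ∀ j, ∀ A : Set ℝ, P {ω | Int.fract (φ j ω) ∈ A} ≤ B * volume A) (h : J → ℝ)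
    (h1 : ∀ j, 1 ≤ h j) (hs : ∀ s : ℝ, 1 < s → Summable fun j => (h j) ^ (-s)) :
    ∀ᵐ ω ∂P, ∀ ε : ℝ, 0 < ε → ∃ C : ℝ, ∀ j : J, ∀ R : ℕ, 1 ≤ R →
      ‖F (a j) R (φ j ω)‖ ≤ C * (h j * R) ^ (1 / 2 + ε) := by
  have main : ∀ ε : ℝ, 0 < ε → ∀ᵐ ω ∂P, ∃ C : ℝ, 0 ≤ C ∧ ∀ j : J, ∀ R : ℕ, 1 ≤ R →
      ‖F (a j) R (φ j ω)‖ ≤ C * (h j * R) ^ (1 / 2 + ε) := by
    intro ε hε
    set s : ℕ × J → Set Ω := fun z =>
      {ω | Int.fract (φ z.2 ω) ∈ Bs (a z.2) (cc ε (h z.2) (z.1 + 1)) (z.1 + 1)} with hs'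
    have hmeas : ∀ z : ℕ × J, P (s z) ≤ B * ENNReal.ofReal
        ((1024 * ((z.1 : ℝ) + 3) ^ 2 * ((2 : ℝ) ^ (-(2 * ε))) ^ (z.1 + 1)) * (h z.2) ^ (-(1 + 2 * ε))) := by
      intro z
      refine (hφ z.2 _).trans ?_
      gcongr
      refine (vol_Bs (a z.2) (ha z.2) _ _).trans (ENNReal.ofReal_le_ofReal (le_of_eq ?_))
      have hh : 0 < h z.2 := by linarith [h1 z.2]
      have h2 : (0 : ℝ) < (2 : ℝ) ^ (z.1 + 1) := by positivity
      rw [cc_eq ε _ hh _ (by omega), ← Real.rpow_natCast ((h z.2 * 2 ^ (z.1 + 1)) ^ (1 / 2 + ε)) 2,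
        ← Real.rpow_mul (by positivity), Real.mul_rpow hh.le h2.le]
      have e1 : (1 / 2 + ε) * ((2 : ℕ) : ℝ) = 1 + 2 * ε := by push_cast; ring
      rw [e1, Real.rpow_neg hh.le]
      have e2 : ((2 : ℝ) ^ (-(2 * ε))) ^ (z.1 + 1) = ((2 : ℝ) ^ (z.1 + 1)) / ((2 : ℝ) ^ (z.1 + 1)) ^ (1 + 2 * ε) := by
        rw [Real.rpow_add h2, Real.rpow_one, ← Real.rpow_natCast ((2 : ℝ) ^ (-(2 * ε))),
          ← Real.rpow_mul (by norm_num), div_mul_eq_div_div, div_self h2.ne', one_div,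
          ← Real.rpow_neg h2.le, ← Real.rpow_natCast (2 : ℝ) (z.1 + 1), ← Real.rpow_mul (by norm_num)]
        congr 1
        ring
      rw [e2]
      have h3 : (0 : ℝ) < (h z.2) ^ (1 + 2 * ε) := by positivity
      have h4 : (0 : ℝ) < ((2 : ℝ) ^ (z.1 + 1)) ^ (1 + 2 * ε) := by positivity
      push_cast
      field_simp
      ring
    have hsum : ∑' z, P (s z) ≠ ⊤ := by
      refine ne_top_of_le_ne_top ?_ (ENNReal.tsum_le_tsum hmeas)
      rw [ENNReal.tsum_mul_left]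
      refine ENNReal.mul_ne_top hB ?_
      have hS : Summable (fun z : ℕ × J =>
          (1024 * ((z.1 : ℝ) + 3) ^ 2 * ((2 : ℝ) ^ (-(2 * ε))) ^ (z.1 + 1)) * (h z.2) ^ (-(1 + 2 * ε))) := by
        have hr : ‖((2 : ℝ) ^ (-(2 * ε)))‖ < 1 := by
          rw [Real.norm_of_nonneg (by positivity)]
          exact Real.rpow_lt_one_of_one_lt_of_neg (by norm_num) (by linarith)
        have hS1 : Summable (fun i : ℕ => 1024 * ((i : ℝ) + 3) ^ 2 * ((2 : ℝ) ^ (-(2 * ε))) ^ (i + 1)) := by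
          have t0 := summable_pow_mul_geometric_of_norm_lt_one 0 hr
          have t1 := summable_pow_mul_geometric_of_norm_lt_one 1 hr
          have t2 := summable_pow_mul_geometric_of_norm_lt_one 2 hr
          have t := ((t2.add ((t1.mul_left 6).add (t0.mul_left 9))).mul_left
            (1024 * (2 : ℝ) ^ (-(2 * ε))))
          refine t.congr (fun i => ?_)
          rw [pow_succ]
          ring
        exact hS1.mul_of_nonneg (hs (1 + 2 * ε) (by linarith))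
          (fun i => by positivity) (fun j => by have := h1 j; positivity)
      exact hS.tsum_ofReal_ne_top
    filter_upwards [ae_finite_setOf_mem hsum] with ω hω
    set C : ℝ := 1 + ∑ z ∈ hω.toFinset, (2 : ℝ) ^ (z.1 + 2) with hC
    have hsum0 : 0 ≤ ∑ z ∈ hω.toFinset, (2 : ℝ) ^ (z.1 + 2) := Finset.sum_nonneg fun _ _ => by positivity
    have hC1 : 1 ≤ C := by linarith
    refine ⟨C, by linarith, fun j R hR => ?_⟩
    have hR1 : (1 : ℝ) ≤ R := by exact_mod_cast hR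
    have hhj := h1 j
    have hhR : (1 : ℝ) ≤ h j * R := one_le_mul_of_one_le_of_one_le hhj hR1
    have hpow : (1 : ℝ) ≤ (h j * R) ^ (1 / 2 + ε) := Real.one_le_rpow hhR (by linarith)
    rcases Nat.lt_or_ge R 2 with hR2 | hR2
    · have : R = 1 := by omega
      subst this
      refine (F_le (a j) (ha j) 1 _).trans ?_
      push_cast at hpow ⊢
      nlinarith
    · set i : ℕ := Nat.log 2 R with hi
      have hi0 : 1 ≤ i := Nat.log_pos (by norm_num) hR2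
      have hi1 : 2 ^ i ≤ R := Nat.pow_log_le_self 2 (by omega)
      have hi2 : R < 2 ^ (i + 1) := Nat.lt_pow_succ_log_self (by norm_num) R
      obtain ⟨i', hi'⟩ : ∃ i', i = i' + 1 := ⟨i - 1, by omega⟩
      by_cases hbad : ((i', j) : ℕ × J) ∈ hω.toFinset
      · have h3 : (2 : ℝ) ^ (i' + 2) ≤ ∑ z ∈ hω.toFinset, (2 : ℝ) ^ (z.1 + 2) :=
          Finset.single_le_sum (f := fun z : ℕ × J => (2 : ℝ) ^ (z.1 + 2)) (fun _ _ => by positivity) hbad
        have h4 : (R : ℝ) ≤ 2 ^ (i' + 2) := by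
          have : R ≤ 2 ^ (i' + 2) := by rw [hi'] at hi2; exact hi2.le
          exact_mod_cast this
        refine (F_le (a j) (ha j) R _).trans ?_
        nlinarith
      · have h3 : ω ∉ s (i', j) := by
          intro hcon
          exact hbad ((Set.Finite.mem_toFinset hω).2 hcon)
        have h4 : ‖F (a j) R (φ j ω)‖ ≤ ((2 : ℝ) ^ (i' + 1)) ^ (cc ε (h j) (i' + 1)) := by
          by_contra hcon
          push Not at hcon
          apply h3
          refine ⟨⟨Int.fract_nonneg _, (Int.fract_lt_one _).le⟩, R, ?_, ?_⟩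
          · rw [hi'] at hi2
            exact hi2.le
          · show ((2 : ℝ) ^ (i' + 1)) ^ (cc ε (h j) (i' + 1)) < ‖F (a j) R (Int.fract (φ j ω))‖
            rw [← F_add_int _ R _ ⌊φ j ω⌋, Int.fract_add_floor]
            exact hcon
        rw [cc_eq ε _ (by linarith) _ (by omega)] at h4
        refine h4.trans ?_
        have h5 : (h j * 2 ^ (i' + 1)) ^ (1 / 2 + ε) ≤ (h j * R) ^ (1 / 2 + ε) := by
          apply Real.rpow_le_rpow (by positivity) _ (by linarith)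
          apply mul_le_mul_of_nonneg_left _ (by linarith)
          rw [hi'] at hi1
          exact_mod_cast hi1
        nlinarith
  have hall : ∀ᵐ ω ∂P, ∀ k : ℕ, ∃ C : ℝ, 0 ≤ C ∧ ∀ j : J, ∀ R : ℕ, 1 ≤ R →
      ‖F (a j) R (φ j ω)‖ ≤ C * (h j * R) ^ (1 / 2 + 1 / ((k : ℝ) + 1)) := by
    rw [ae_all_iff]
    exact fun k => main _ (by positivity)
  filter_upwards [hall] with ω hω ε hε
  obtain ⟨k, hk⟩ := exists_nat_gt (1 / ε)
  have hk1 : 1 / ((k : ℝ) + 1) ≤ ε := by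
    rw [div_le_iff₀ (by positivity)]
    rw [div_lt_iff₀ hε] at hk
    nlinarith
  obtain ⟨C, hC0, hC⟩ := hω k
  refine ⟨C, fun j R hR => (hC j R hR).trans (mul_le_mul_of_nonneg_left ?_ hC0)⟩
  have hR1 : (1 : ℝ) ≤ R := by exact_mod_cast hR
  exact Real.rpow_le_rpow_of_exponent_le (one_le_mul_of_one_le_of_one_le (h1 j) hR1) (by linarith)

end Pool.Agent.Q36.DM
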