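import Pool.Agent.Q36.DM.Law

/-! # The dimension of the exceptional set, uniformly over a countable family of translations -/

set_option autoImplicit false

open Finset

namespace Pool.Agent.Q36.DM

/-- the exceptional set -/
def Ej {J : Type} (a : J → ℕ → ℂ) (b h : J → ℝ) (c : ℝ) : Set ℝ :=
  {x : ℝ | ¬ ∃ C : ℝ, ∀ j : J, ∀ R : ℕ, 1 ≤ R → ‖F (a j) R (x + b j)‖ ≤ C * (h j * R) ^ c}

/-- the bad set at the scale `i` -/
def Vj {J : Type} (a : J → ℕ → ℂ) (b h : J → ℝ) (c : ℝ) (i : ℕ) : Set ℝ :=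
  {x : ℝ | x ∈ Set.Icc (0 : ℝ) 1 ∧ ∃ j : J, Int.fract (x + b j) ∈ Bs (a j) (cc (c - 1 / 2) (h j) i) i}

theorem unif_dim01 {J : Type} (a : J → ℕ → ℂ) (ha : ∀ j n, ‖a j n‖ ≤ 1)
    (b : J → ℝ) (h : J → ℝ) (h1 : ∀ j, 1 ≤ h j) (c : ℝ) (hc0 : 1 / 2 < c) (hc : c ≤ 1)
    (hs : Summable fun j => (h j) ^ (-(2 * c))) :
    dimH (Ej a b h c ∩ Set.Icc 0 1) ≤ ENNReal.ofReal (2 - 2 * c) := by
  classical
  have hsub : Ej a b h c ∩ Set.Icc 0 1 ⊆ {x : ℝ | ∀ i1 : ℕ, ∃ i : ℕ, i1 ≤ i ∧ x ∈ Vj a b h c i} := by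
    rintro x ⟨hx, hx01⟩ i1
    unfold Ej at hx
    rw [Set.mem_setOf_eq] at hx
    push Not at hx
    obtain ⟨j, R, hR1, hR⟩ := hx ((2 : ℝ) ^ (i1 + 1))
    have hhj := h1 j
    have hR0 : (1 : ℝ) ≤ (R : ℝ) := by exact_mod_cast hR1
    have hhR : (1 : ℝ) ≤ h j * R := one_le_mul_of_one_le_of_one_le hhj hR0
    have hRc : (1 : ℝ) ≤ (h j * R) ^ c := Real.one_le_rpow hhR (by linarith)
    have h2i : (1 : ℝ) ≤ 2 ^ (i1 + 1) := one_le_pow₀ (by norm_num)
    have hbig : 2 ^ (i1 + 1) ≤ R := by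
      by_contra hcon
      push Not at hcon
      have h1 := F_le (a j) (ha j) R (x + b j)
      have h2 : (R : ℝ) < 2 ^ (i1 + 1) := by exact_mod_cast hcon
      nlinarith
    set i : ℕ := Nat.log 2 R with hi
    have hi1 : 2 ^ i ≤ R := Nat.pow_log_le_self 2 (by omega)
    have hi2 : R < 2 ^ (i + 1) := Nat.lt_pow_succ_log_self (by norm_num) R
    have hii : i1 + 1 ≤ i := Nat.le_log_of_pow_le (by norm_num) hbig
    refine ⟨i, by omega, hx01, j, ⟨Int.fract_nonneg _, (Int.fract_lt_one _).le⟩, R, hi2.le, ?_⟩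
    rw [cc_eq _ _ (by linarith) _ (by omega), ← F_add_int _ R _ ⌊x + b j⌋, Int.fract_add_floor]
    have e1 : (1 / 2 + (c - 1 / 2)) = c := by ring
    rw [e1]
    have h2 : (h j * (2 : ℝ) ^ i) ^ c ≤ (h j * R) ^ c := by
      apply Real.rpow_le_rpow (by positivity) _ (by linarith)
      apply mul_le_mul_of_nonneg_left _ (by linarith)
      exact_mod_cast hi1
    nlinarith
  refine (dimH_mono hsub).trans ?_
  have hD : ∀ D : ℝ, 2 - 2 * c < D →
      dimH {x : ℝ | ∀ i1 : ℕ, ∃ i : ℕ, i1 ≤ i ∧ x ∈ Vj a b h c i} ≤ ENNReal.ofReal D := by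
    intro D hD
    set η : ℝ := (D - (2 - 2 * c)) / 3 with hη
    have hη0 : 0 < η := by rw [hη]; linarith
    obtain ⟨i0, hi0⟩ := eventually_small c (2 - 2 * c + η) (by linarith)
    set Sm : ℝ := ∑' j, (h j) ^ (-(2 * c)) with hSm
    obtain ⟨i2, hi2⟩ : ∃ i2 : ℕ, ∀ i : ℕ, i2 ≤ i → 2 * Sm ≤ ((2 : ℝ) ^ i) ^ η := by
      have h1 : (1 : ℝ) < (2 : ℝ) ^ η := Real.one_lt_rpow (by norm_num) hη0
      have h2 := (tendsto_pow_atTop_atTop_of_one_lt h1).eventually_ge_atTop (2 * Sm)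
      obtain ⟨i2, hi2⟩ := h2.exists_forall_of_atTop
      refine ⟨i2, fun i hi => (hi2 i hi).trans (le_of_eq ?_)⟩
      rw [← Real.rpow_natCast ((2 : ℝ) ^ η), ← Real.rpow_mul (by norm_num), mul_comm,
        Real.rpow_mul (by norm_num), Real.rpow_natCast]
    refine Pool.Agent.TH181.MW.S_DIMG_t (D - η) 1 D (Vj a b h c) (by norm_num)
      (by linarith) (by linarith) ⟨max 1 (max i0 i2), fun i hi => ?_⟩
    have hi1' : 1 ≤ i := le_of_max_le_left hi
    have hi0' : i0 ≤ i := le_of_max_le_left (le_of_max_le_right hi)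
    have hi2' : i2 ≤ i := le_of_max_le_right (le_of_max_le_right hi)
    have h2i : (0 : ℝ) < (2 : ℝ) ^ i := by positivity
    -- finitely many indices matter
    have hfin : {j : J | (h j * 2 ^ i) ^ c < (2 : ℝ) ^ (i + 1)}.Finite := by
      have ht := hs.tendsto_cofinite_zero
      have hpos : (0 : ℝ) < ((2 : ℝ) ^ (i + 1)) ^ (-(2 : ℝ)) * ((2 : ℝ) ^ i) ^ (2 * c) := by positivity
      have hev := ht.eventually (gt_mem_nhds hpos)
      rw [Filter.eventually_cofinite] at hev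
      refine hev.subset (fun j hj => ?_)
      have hhj : 0 < h j := by linarith [h1 j]
      rw [Set.mem_setOf_eq] at hj ⊢
      intro hcon
      have h3 : ((2 : ℝ) ^ (i + 1)) ^ (-(2 : ℝ)) < ((h j * 2 ^ i) ^ c) ^ (-(2 : ℝ)) :=
        Real.rpow_lt_rpow_of_neg (by positivity) hj (by norm_num)
      rw [← Real.rpow_mul (by positivity), Real.mul_rpow hhj.le h2i.le] at h3
      have e2 : c * -2 = -(2 * c) := by ring
      rw [e2] at h3
      have h4 : ((2 : ℝ) ^ i) ^ (-(2 * c)) * ((2 : ℝ) ^ i) ^ (2 * c) = 1 := by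
        rw [← Real.rpow_add h2i]
        simp
      have h5 : 0 < ((2 : ℝ) ^ i) ^ (2 * c) := by positivity
      have h6 := mul_lt_mul_of_pos_right h3 h5
      rw [mul_assoc, h4, mul_one] at h6
      linarith
    choose S hS hcov using fun j : J => cover (a j) (ha j) (cc (c - 1 / 2) (h j) i) i
    refine ⟨hfin.toFinset.biUnion (fun j => (S j ×ˢ Finset.range 2).image
      (fun w => w.1 + (⌊b j⌋ + w.2) - b j)), ?_, ?_⟩
    · have hc1 : ∀ j ∈ hfin.toFinset, (((S j ×ˢ Finset.range 2).image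
          (fun w => w.1 + (⌊b j⌋ + w.2) - b j)).card : ℝ) ≤
          2 * (1024 * ((i : ℝ) + 2) ^ 2 * ((2 : ℝ) ^ i) ^ 2 / (((2 : ℝ) ^ i) ^ c) ^ 2) * (h j) ^ (-(2 * c)) := by
        intro j _
        have hhj : 0 < h j := by linarith [h1 j]
        refine (Nat.cast_le.2 Finset.card_image_le).trans ?_
        rw [card_product, card_range]
        push_cast
        refine (mul_le_mul_of_nonneg_right (hS j) (by norm_num)).trans (le_of_eq ?_)
        rw [cc_eq _ _ hhj _ hi1']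
        have e1 : (1 / 2 + (c - 1 / 2)) = c := by ring
        rw [e1, Real.mul_rpow hhj.le h2i.le, Real.rpow_neg hhj.le]
        have e2 : h j ^ (2 * c) = (h j ^ c) ^ 2 := by
          rw [← Real.rpow_natCast, ← Real.rpow_mul hhj.le]
          congr 1
          push_cast
          ring
        rw [e2]
        have h3 : 0 < h j ^ c := by positivity
        have h4 : 0 < ((2 : ℝ) ^ i) ^ c := by positivity
        field_simp
      have hcard := Finset.card_biUnion_le (s := hfin.toFinset) (t := fun j => (S j ×ˢ Finset.range 2).image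
        (fun w => w.1 + (⌊b j⌋ + w.2) - b j))
      refine (Nat.cast_le.2 hcard).trans ?_
      push_cast
      refine (Finset.sum_le_sum hc1).trans ?_
      rw [← Finset.mul_sum]
      have hle : ∑ j ∈ hfin.toFinset, (h j) ^ (-(2 * c)) ≤ Sm :=
        hs.sum_le_tsum _ (fun j _ => by have := h1 j; positivity)
      have hSm0 : 0 ≤ Sm := tsum_nonneg fun j => by have := h1 j; positivity
      have hsm := hi0 i hi0'
      have hbig := hi2 i hi2'
      have hX : (0 : ℝ) ≤ 1024 * ((i : ℝ) + 2) ^ 2 * ((2 : ℝ) ^ i) ^ 2 / (((2 : ℝ) ^ i) ^ c) ^ 2 := by positivity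
      calc 2 * (1024 * ((i : ℝ) + 2) ^ 2 * ((2 : ℝ) ^ i) ^ 2 / (((2 : ℝ) ^ i) ^ c) ^ 2) *
            ∑ j ∈ hfin.toFinset, (h j) ^ (-(2 * c))
          ≤ 2 * (1024 * ((i : ℝ) + 2) ^ 2 * ((2 : ℝ) ^ i) ^ 2 / (((2 : ℝ) ^ i) ^ c) ^ 2) * Sm :=
            mul_le_mul_of_nonneg_left hle (by positivity)
        _ = (2 * Sm) * (1024 * ((i : ℝ) + 2) ^ 2 * ((2 : ℝ) ^ i) ^ 2 / (((2 : ℝ) ^ i) ^ c) ^ 2) := by ring
        _ ≤ ((2 : ℝ) ^ i) ^ η * ((2 : ℝ) ^ i) ^ (2 - 2 * c + η) :=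
            mul_le_mul hbig hsm hX (by positivity)
        _ = ((2 : ℝ) ^ i) ^ (D - η) := by
            rw [← Real.rpow_add h2i]
            congr 1
            rw [hη]
            ring
    · rintro x ⟨hx, j, hxj⟩
      have hj : j ∈ hfin.toFinset := by
        rw [Set.Finite.mem_toFinset, Set.mem_setOf_eq]
        obtain ⟨-, R, hR, hRx⟩ := hxj
        rw [cc_eq _ _ (by linarith [h1 j]) _ hi1'] at hRx
        have e1 : (1 / 2 + (c - 1 / 2)) = c := by ring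
        rw [e1] at hRx
        refine hRx.trans_le ((F_le (a j) (ha j) R _).trans ?_)
        exact_mod_cast hR
      obtain ⟨z, hz, hzx⟩ := Set.mem_iUnion₂.1 (hcov j hxj)
      have hfl : (⌊x + b j⌋ : ℝ) + Int.fract (x + b j) = x + b j := Int.floor_add_fract _
      obtain ⟨k, hk, hkx⟩ : ∃ k ∈ Finset.range 2, ⌊x + b j⌋ = ⌊b j⌋ + (k : ℤ) := by
        have h3 : ⌊b j⌋ ≤ ⌊x + b j⌋ := Int.floor_le_floor (by linarith [hx.1])
        have h4 : ⌊x + b j⌋ ≤ ⌊b j⌋ + 1 := by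
          rw [← Int.floor_add_one]
          exact Int.floor_le_floor (by linarith [hx.2])
        refine ⟨(⌊x + b j⌋ - ⌊b j⌋).toNat, ?_, ?_⟩
        · rw [Finset.mem_range]
          omega
        · omega
      rw [Set.mem_iUnion₂]
      refine ⟨z + (⌊b j⌋ + k) - b j, Finset.mem_biUnion.2 ⟨j, hj, Finset.mem_image.2
        ⟨(z, k), mem_product.2 ⟨hz, hk⟩, rfl⟩⟩, ?_⟩
      have h5 : (⌊x + b j⌋ : ℝ) = ⌊b j⌋ + k := by
        rw [hkx]
        push_cast
        rfl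
      constructor
      · linarith [hzx.1]
      · linarith [hzx.2]
  refine ENNReal.le_of_forall_pos_le_add ?_
  intro ε hε _
  have h1 := hD (2 - 2 * c + ε) (by have : (0 : ℝ) < ε := hε; linarith)
  rw [ENNReal.ofReal_add (by linarith) ε.coe_nonneg, ENNReal.ofReal_coe_nnreal] at h1
  exact h1

theorem unif_dim {J : Type} (a : J → ℕ → ℂ) (ha : ∀ j n, ‖a j n‖ ≤ 1)
    (b : J → ℝ) (h : J → ℝ) (h1 : ∀ j, 1 ≤ h j) (c : ℝ) (hc0 : 1 / 2 < c) (hc : c ≤ 1)
    (hs : Summable fun j => (h j) ^ (-(2 * c))) :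
    dimH (Ej a b h c) ≤ ENNReal.ofReal (2 - 2 * c) := by
  have hper : ∀ (x : ℝ) (m : ℤ), x + m ∈ Ej a b h c → x ∈ Ej a b h c := by
    intro x m hx hcon
    apply hx
    obtain ⟨C, hC⟩ := hcon
    refine ⟨C, fun j R hR => ?_⟩
    have e1 : x + m + b j = (x + b j) + m := by ring
    rw [e1, F_add_int]
    exact hC j R hR
  have hsub : Ej a b h c ⊆ ⋃ m : ℤ, (fun y : ℝ => y + (m : ℝ)) '' (Ej a b h c ∩ Set.Icc 0 1) := by
    intro x hx
    rw [Set.mem_iUnion]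
    refine ⟨⌊x⌋, Int.fract x, ⟨hper _ ⌊x⌋ ?_, Int.fract_nonneg _, (Int.fract_lt_one _).le⟩,
      Int.fract_add_floor x⟩
    rw [Int.fract_add_floor]
    exact hx
  refine (dimH_mono hsub).trans ?_
  rw [dimH_iUnion]
  refine iSup_le (fun m => ?_)
  have hiso : Isometry (fun y : ℝ => y + (m : ℝ)) := isometry_add_right _
  rw [hiso.dimH_image]
  exact unif_dim01 a ha b h h1 c hc0 hc hs

end Pool.Agent.Q36.DM
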